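import Mathlib

set_option autoImplicit false
open Set Filter
open scoped Topology

namespace Pool.Agent.Results.MP_3eafcc_gt.Exists

/-- `T''(X)`: functions continuous on some dense cozero set. -/
def Tpp (X : Type) [TopologicalSpace X] : Set (X → ℝ) :=
  {f | ∃ g : X → ℝ, Continuous g ∧ Dense {x | g x ≠ 0} ∧ ContinuousOn f {x | g x ≠ 0}}

/-- Every element of the ring `T''(X)` (pointwise operations) is a unit or a zero divisor. -/
def AlmostRegular (X : Type) [TopologicalSpace X] : Prop :=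
  ∀ f ∈ Tpp X, (∃ g ∈ Tpp X, f * g = 1) ∨ ∃ g ∈ Tpp X, g ≠ 0 ∧ f * g = 0

def Y : Type := ℕ ⊕ ℕ

def a (n : ℕ) : Y := Sum.inl n
def b (n : ℕ) : Y := Sum.inr n

instance : TopologicalSpace Y where
  IsOpen U := ((∃ n, b n ∈ U) → {n | b n ∉ U}.Finite) ∧ (b 0 ∈ U → {n | a n ∉ U}.Finite)
  isOpen_univ := by simp
  isOpen_inter := by
    rintro U V ⟨h1, h2⟩ ⟨h3, h4⟩
    refine ⟨fun ⟨n, hn⟩ => ((h1 ⟨n, hn.1⟩).union (h3 ⟨n, hn.2⟩)).subset ?_,
      fun h => ((h2 h.1).union (h4 h.2)).subset ?_⟩ <;>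
    · intro m hm
      simp only [mem_setOf_eq, mem_inter_iff, mem_union] at hm ⊢
      tauto
  isOpen_sUnion := by
    intro s hs
    refine ⟨fun ⟨n, U, hU, hn⟩ => ((hs U hU).1 ⟨n, hn⟩).subset ?_,
      fun ⟨U, hU, hn⟩ => ((hs U hU).2 hn).subset ?_⟩ <;>
    · intro m hm h
      exact hm ⟨U, hU, h⟩

lemma isOpen_iff (U : Set Y) : IsOpen U ↔
    ((∃ n, b n ∈ U) → {n | b n ∉ U}.Finite) ∧ (b 0 ∈ U → {n | a n ∉ U}.Finite) := Iff.rfl

lemma a_inj : Function.Injective a := Sum.inl_injective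
lemma b_inj : Function.Injective b := Sum.inr_injective
lemma a_ne_b (m n : ℕ) : a m ≠ b n := Sum.inl_ne_inr

instance : T1Space Y where
  t1 x := by
    rw [← isOpen_compl_iff, isOpen_iff]
    refine ⟨fun _ => ?_, fun _ => ?_⟩
    · exact ((finite_singleton x).preimage b_inj.injOn).subset (fun n hn => by simpa using hn)
    · exact ((finite_singleton x).preimage a_inj.injOn).subset (fun n hn => by simpa using hn)

lemma tb (m : ℕ) : Tendsto b cofinite (𝓝 (b m)) := by
  intro U hU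
  obtain ⟨V, hVU, hV, hm⟩ := mem_nhds_iff.1 hU
  exact (hV.1 ⟨m, hm⟩).subset (fun n hn h => hn (hVU h))

lemma ta : Tendsto a cofinite (𝓝 (b 0)) := by
  intro U hU
  obtain ⟨V, hVU, hV, hm⟩ := mem_nhds_iff.1 hU
  exact (hV.2 hm).subset (fun n hn h => hn (hVU h))

lemma const {g : Y → ℝ} (h : ∀ m, ContinuousAt g (b m)) (m : ℕ) : g (b m) = g (b 0) :=
  tendsto_nhds_unique ((h m).tendsto.comp (tb m)) ((h 0).tendsto.comp (tb 0))

noncomputable def f : Y → ℝ := Sum.elim (fun n => 1 / ((n : ℝ) + 1)) (fun _ => 0)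

lemma f_cont : Continuous f := by
  refine ⟨fun W hW => ⟨fun ⟨n, hn⟩ => ?_, fun h => ?_⟩⟩
  · have : {n | b n ∉ f ⁻¹' W} = ∅ := by
      ext m; simp only [mem_setOf_eq, mem_empty_iff_false, iff_false, not_not]; exact hn
    rw [this]; exact finite_empty
  · have := tendsto_one_div_add_atTop_nhds_zero_nat (𝕜 := ℝ) (hW.mem_nhds h)
    rw [← Nat.cofinite_eq_atTop] at this
    exact this

theorem result : ∃ (X : Type) (_ : TopologicalSpace X), T1Space X ∧ ¬ AlmostRegular X := by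
  refine ⟨Y, inferInstance, inferInstance, fun h => ?_⟩
  rcases h f ⟨1, continuous_const, by simp, f_cont.continuousOn⟩ with ⟨g, -, hg⟩ | ⟨g, hg, h0, h1⟩
  · have h2 : (0 : ℝ) * g (b 0) = 1 := congrFun hg (b 0)
    simp at h2
  obtain ⟨u, hu, hd, hc⟩ := hg
  have ho : IsOpen {x | u x ≠ 0} := isOpen_ne_fun hu continuous_const
  have hb : ∀ m, u (b m) ≠ 0 := by
    have hW : IsOpen (b '' {n | n ≠ 0}) := by
      refine ⟨fun _ => (finite_singleton 0).subset (fun n hn => ?_), fun ⟨n, hn, e⟩ => ?_⟩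
      · by_contra h2
        exact hn ⟨n, h2, rfl⟩
      · exact absurd (b_inj e) hn
    obtain ⟨x, ⟨n, -, rfl⟩, hx⟩ := hd.inter_open_nonempty _ hW ⟨b 1, 1, one_ne_zero, rfl⟩
    intro m
    rw [const (fun _ => hu.continuousAt) m, ← const (fun _ => hu.continuousAt) n]
    exact hx
  have hg : ∀ m, ContinuousAt g (b m) := fun m => hc.continuousAt (ho.mem_nhds (hb m))
  have ha : ∀ n, g (a n) = 0 := by
    intro n
    have := congrFun h1 (a n)
    have e : f (a n) ≠ 0 := by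
      show 1 / ((n : ℝ) + 1) ≠ 0
      positivity
    exact (mul_eq_zero.1 this).resolve_left e
  have hb0 : g (b 0) = 0 := by
    have h2 := (hg 0).tendsto.comp ta
    have e : g ∘ a = fun _ => 0 := funext ha
    rw [e] at h2
    exact tendsto_nhds_unique h2 tendsto_const_nhds
  apply h0
  funext x
  rcases x with n | n
  · exact ha n
  · exact (const hg n).trans hb0

end Pool.Agent.Results.MP_3eafcc_gt.Exists
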